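import Pool.Agent.TH46.IA.Main

/-!
# The graded Lie ring of `IA 3` is not a free Lie algebra modulo quadratic relations

`IAGroup 3` is the group of automorphisms of the free group of rank three which induce the
identity on the abelianization. `FreeModQuadratic G` says that the kernel of the natural Lie ring
homomorphism from the free Lie ring on the abelianization `V` of `G` to the graded Lie ring of the
lower central series of `G` is generated, as a Lie ideal, by elements of degree two.

Proof: there are homomorphisms `A`, `P`, `R` from `IA 3` to `ℤ` such that the cup products of `A`
with `P` and of `P` with `R` vanish, so that the free Lie ring on `V` has a homomorphism to the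
Lie ring of strictly upper triangular matrices of size four which kills all relations of degree
two; but it does not kill the relation `[a, [p, r]] = 1`, where `a` sends `x₀` to
`x₀ [x₁⁻¹, x₂⁻¹]` and `p`, `r` conjugate `x₀` by `x₁`, `x₂`.
-/

set_option autoImplicit false

namespace Pool.Agent.Results.MP_df4ecf_al.IAThreeNotQuadratic

theorem result : ¬ Pool.Agent.TH46.IA.FreeModQuadratic ↥(Pool.Agent.TH46.IA.IAGroup 3) :=
  Pool.Agent.TH46.IA.main

end Pool.Agent.Results.MP_df4ecf_al.IAThreeNotQuadratic
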